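import Pool.Agent.V7H45.CY.Spec3
import Pool.Agent.V7H94.CY.G

/-!
# Project CYC, part 2, job G4: pigeonhole with the two directions `(d, 1)` and `(1, d)`
-/

set_option autoImplicit false

namespace Pool.Agent.V7H58.CY

open Finset Pool.Agent.W262.RK Pool.Agent.W307.RT Pool.Agent.V7H45.G8 Pool.Agent.V7H45.CY
  Pool.Agent.V7H94.CY

section
variable {n : ℕ} (cls : Fin n → Fin 4) (κ : Fin n → ℤ) (s : Fin n → ℕ)

/-- the primes of the class `k` with symbol one -/
noncomputable def Pk (k : Fin 4) : Finset ℕ :=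
  (univ.filter (fun j => cls j = k)).biUnion
    (fun j => (s j).primeFactors.filter (fun p => jacobiSym (κ j) p = 1))

/-- the primes of the other classes -/
noncomputable def Qk (k : Fin 4) : Finset ℕ :=
  (univ.filter (fun j => ¬ cls j = k)).biUnion (fun j => (s j).primeFactors)

lemma Pk_prime (k : Fin 4) : ∀ p ∈ Pk cls κ s k, p.Prime := by
  intro p hp
  rw [Pk, mem_biUnion] at hp
  obtain ⟨j, _, hj⟩ := hp
  exact Nat.prime_of_mem_primeFactors (mem_filter.1 hj).1

lemma Qk_prime (k : Fin 4) : ∀ p ∈ Qk cls s k, p.Prime := by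
  intro p hp
  rw [Qk, mem_biUnion] at hp
  obtain ⟨j, _, hj⟩ := hp
  exact Nat.prime_of_mem_primeFactors hj

variable {cls κ s}

lemma PQ_disj (hco : ∀ i j, i ≠ j → (s i).Coprime (s j)) (k : Fin 4) :
    Disjoint (Pk cls κ s k) (Qk cls s k) := by
  rw [disjoint_left]
  intro p hp hq
  rw [Pk, mem_biUnion] at hp
  rw [Qk, mem_biUnion] at hq
  obtain ⟨i, hi, hi'⟩ := hp
  obtain ⟨j, hj, hj'⟩ := hq
  have hij : i ≠ j := by
    rintro rfl
    exact (mem_filter.1 hj).2 (mem_filter.1 hi).2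
  exact disjoint_left.1 (hco i j hij).disjoint_primeFactors (mem_filter.1 hi').1 hj'

lemma TK_le (hco : ∀ i j, i ≠ j → (s i).Coprime (s j))
    (hpm : ∀ j, ∀ p ∈ (s j).primeFactors, jacobiSym (κ j) p = 1 ∨ jacobiSym (κ j) p = -1)
    (k : Fin 4) : TK cls κ k s ≤ ((Ker (Pk cls κ s k) (Qk cls s k)).card : ℝ) := by
  classical
  have hcP : (Pk cls κ s k).card = ∑ j ∈ univ.filter (fun j => cls j = k),
      ((s j).primeFactors.filter (fun p => jacobiSym (κ j) p = 1)).card := by
    rw [Pk]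
    apply card_biUnion
    intro i _ j _ hij
    exact Disjoint.mono (filter_subset _ _) (filter_subset _ _)
      (hco i j hij).disjoint_primeFactors
  have hcQ : (Qk cls s k).card = ∑ j ∈ univ.filter (fun j => ¬ cls j = k),
      (s j).primeFactors.card := by
    rw [Qk]
    exact card_biUnion fun i _ j _ hij => (hco i j hij).disjoint_primeFactors
  have e1 : TK cls κ k s =
      (2 : ℝ) ^ (Pk cls κ s k).card * (1 / 2 : ℝ) ^ (Qk cls s k).card := by
    rw [hcP, hcQ, ← prod_pow_eq_pow_sum, ← prod_pow_eq_pow_sum]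
    unfold TK
    rw [← prod_filter_mul_prod_filter_not univ (fun j => cls j = k)]
    congr 1
    · refine prod_congr rfl fun j hj => ?_
      have hj' := (mem_filter.1 hj).2
      have e2 : ∀ p ∈ (s j).primeFactors, (if cls j = k then (3 + Jr (κ j) p) / 2 else 1 / 2 : ℝ)
          = if jacobiSym (κ j) p = 1 then (2 : ℝ) else 1 := by
        intro p hp
        rw [if_pos hj']
        unfold Jr
        rcases hpm j p hp with h | h
        · rw [h]
          norm_num
        · rw [h]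
          norm_num
      rw [prod_congr rfl e2, prod_ite, prod_const, prod_const_one, mul_one]
    · refine prod_congr rfl fun j hj => ?_
      have hj' := (mem_filter.1 hj).2
      rw [prod_congr rfl fun p _ => if_neg hj', prod_const]
  have hTT : TK cls κ k s * 2 ^ (Qk cls s k).card = 2 ^ (Pk cls κ s k).card := by
    rw [e1, mul_assoc, ← mul_pow]
    norm_num
  have hK := ker_card (Pk cls κ s k) (Qk cls s k) (Pk_prime cls κ s k) (Qk_prime cls s k)
    (PQ_disj hco k)
  have h6 : (2 : ℝ) ^ (Pk cls κ s k).card ≤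
      2 ^ (Qk cls s k).card * ((Ker (Pk cls κ s k) (Qk cls s k)).card : ℝ) := by
    exact_mod_cast hK
  have h7 : TK cls κ k s * 2 ^ (Qk cls s k).card ≤
      ((Ker (Pk cls κ s k) (Qk cls s k)).card : ℝ) * 2 ^ (Qk cls s k).card := by
    rw [hTT]
    linarith
  exact le_of_mul_le_mul_right h7 (by positivity)

/-- the data of a number `d`, the product of a set of the kernel -/
lemma ker_data (hco : ∀ i j, i ≠ j → (s i).Coprime (s j)) (k : Fin 4)
    (S : Finset ℕ) (hS : S ∈ Ker (Pk cls κ s k) (Qk cls s k)) :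
    (∏ p ∈ S, p : ℕ) ∣ ∏ j, s j ∧
    (∀ j, ∀ p ∈ (s j).primeFactors, cls j ≠ k → dv p ((∏ p ∈ S, p : ℕ) : ℤ) = false ∧
      sgn p ((∏ p ∈ S, p : ℕ) : ℤ) = false) ∧
    (∀ j, ∀ p ∈ (s j).primeFactors, (dv p ((∏ p ∈ S, p : ℕ) : ℤ) && sg0 p (κ j)) = false ∨
      cls j ≠ k) := by
  classical
  rw [Ker, mem_filter, mem_powerset] at hS
  obtain ⟨hSP, hSj⟩ := hS
  have hprime : ∀ p ∈ S, p.Prime := fun p hp => Pk_prime cls κ s k p (hSP hp)
  have hmem : ∀ p, p.Prime → p ∣ (∏ p ∈ S, p : ℕ) → p ∈ S := by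
    intro p hpp h
    obtain ⟨q, hq, hpq⟩ := (Prime.dvd_finsetProd_iff hpp.prime _).1 h
    have hqe : p = q := (Nat.prime_dvd_prime_iff_eq hpp (hprime q hq)).1 hpq
    exact hqe ▸ hq
  refine ⟨?_, ?_, ?_⟩
  · apply Finset.prod_primes_dvd
    · intro p hp
      exact (hprime p hp).prime
    · intro p hp
      have := hSP hp
      rw [Pk, mem_biUnion] at this
      obtain ⟨j, _, hj⟩ := this
      exact (Nat.dvd_of_mem_primeFactors (mem_filter.1 hj).1).trans
        (dvd_prod_of_mem _ (mem_univ j))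
  · intro j p hpj hc
    have hpp := Nat.prime_of_mem_primeFactors hpj
    have hpQ : p ∈ Qk cls s k := by
      rw [Qk, mem_biUnion]
      exact ⟨j, mem_filter.2 ⟨mem_univ _, hc⟩, hpj⟩
    have hnd : ¬ p ∣ (∏ p ∈ S, p : ℕ) := fun h =>
      disjoint_left.1 (PQ_disj hco k) (hSP (hmem p hpp h)) hpQ
    refine ⟨?_, ?_⟩
    · unfold dv
      rw [decide_eq_false_iff_not]
      intro h
      exact hnd (by exact_mod_cast h)
    · unfold sgn
      have hg : Int.gcd ((∏ p ∈ S, p : ℕ) : ℤ) (p : ℤ) = 1 := by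
        rw [Int.gcd_natCast_natCast]
        exact (Nat.Prime.coprime_iff_not_dvd hpp).2 hnd |>.symm
      rw [hg, Nat.cast_one, Int.ediv_one]
      unfold sg0
      rw [decide_eq_false_iff_not, hSj p hpQ]
      norm_num
  · intro j p hpj
    by_cases hc : cls j = k
    · left
      have hpp := Nat.prime_of_mem_primeFactors hpj
      by_cases hd : p ∣ (∏ p ∈ S, p : ℕ)
      · have hpS := hSP (hmem p hpp hd)
        rw [Pk, mem_biUnion] at hpS
        obtain ⟨i, _, hi⟩ := hpS
        have hij : i = j := by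
          by_contra hne
          exact disjoint_left.1 (hco i j hne).disjoint_primeFactors (mem_filter.1 hi).1 hpj
        subst hij
        have h1 : sg0 p (κ i) = false := by
          unfold sg0
          rw [decide_eq_false_iff_not, (mem_filter.1 hi).2]
          norm_num
        rw [h1, Bool.and_false]
      · have h1 : dv p ((∏ p ∈ S, p : ℕ) : ℤ) = false := by
          unfold dv
          rw [decide_eq_false_iff_not]
          intro h
          exact hd (by exact_mod_cast h)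
        rw [h1, Bool.false_and]
    · exact Or.inr hc

end

/-- the pigeonhole principle with the two directions -/
theorem t_G4 : S_G4 := by
  classical
  intro n cls κ z y hz h3 h0 hκ s hs
  obtain ⟨hdv, hco⟩ : (∀ j, s j ∈ (PP z y).divisors) ∧
      ∀ i j, i ≠ j → (s i).Coprime (s j) := by
    simpa only [Tup, mem_filter, Fintype.mem_piFinset] using hs
  have hs0 : ∀ j, s j ≠ 0 := fun j => Nat.ne_of_gt (Nat.pos_of_mem_divisors (hdv j))
  have hm0 : (∏ j, s j) ≠ 0 := prod_ne_zero_iff.2 fun j _ => hs0 j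
  have hzp : ∀ j, ∀ p ∈ (s j).primeFactors, z < p := by
    intro j p hp
    have hpp := Nat.prime_of_mem_primeFactors hp
    have h1 : p ∣ PP z y :=
      (Nat.dvd_of_mem_primeFactors hp).trans (Nat.dvd_of_mem_divisors (hdv j))
    unfold PP at h1
    obtain ⟨q, hq, hpq⟩ := (Prime.dvd_finsetProd_iff hpp.prime _).1 h1
    unfold PS at hq
    rw [mem_filter] at hq
    have hqe : p = q := (Nat.prime_dvd_prime_iff_eq hpp hq.2).1 hpq
    have := hq.1
    rw [mem_Ioc] at this
    omega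
  have hpm : ∀ j, ∀ p ∈ (s j).primeFactors,
      jacobiSym (κ j) p = 1 ∨ jacobiSym (κ j) p = -1 := by
    intro j p hp
    have hpp := Nat.prime_of_mem_primeFactors hp
    have h1 : jacobiSym (κ j) p ≠ 0 := by
      apply jacobiSym.ne_zero
      rw [Int.gcd_eq_natAbs, Int.natAbs_natCast]
      have h2 : ¬ p ∣ (κ j).natAbs := by
        intro h
        have h4 := Nat.le_of_dvd (Int.natAbs_pos.2 (h0 j)) h
        have h5 := hzp j p hp
        have h6 := hκ j
        omega
      exact ((Nat.Prime.coprime_iff_not_dvd hpp).2 h2).symm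
    rcases jacobiSym.trichotomy (κ j) p with h | h | h
    · exact absurd h h1
    · exact Or.inl h
    · exact Or.inr h
  have hone : ∀ p : ℕ, p.Prime → dv p ((1 : ℕ) : ℤ) = false ∧ sgn p ((1 : ℕ) : ℤ) = false := by
    intro p hpp
    refine ⟨?_, ?_⟩
    · unfold dv
      rw [decide_eq_false_iff_not]
      intro h
      have h' : p ∣ 1 := by exact_mod_cast h
      exact hpp.one_lt.ne' (Nat.dvd_one.1 h')
    · unfold sgn
      have h1 : (((1 : ℕ) : ℤ) / (Int.gcd ((1 : ℕ) : ℤ) (p : ℤ) : ℤ)) = 1 := by simp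
      rw [h1]
      unfold sg0
      rw [decide_eq_false_iff_not, jacobiSym.one_left]
      norm_num
  have hcls : ∀ j, cls j = 0 ∨ cls j = 1 ∨ cls j = 2 := by
    intro j
    have := h3 j
    revert this
    generalize cls j = c
    revert c
    decide
  have hT1 := TK_le (cls := cls) hco hpm 1
  have hT2 := TK_le (cls := cls) hco hpm 2
  obtain ⟨F, hF, hNL⟩ : ∃ F : Finset (ℕ × ℕ),
      (∀ d : ℕ × ℕ, d ∈ F ↔ d ∈ (∏ j, s j).divisors ×ˢ (∏ j, s j).divisors ∧
        ∀ p ∈ (∏ j, s j).primeFactors, LLs cls (fun j _ => κ j) s ∅ p (dv p d.1) (dv p d.2)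
          (sgn p d.1) (sgn p d.2)) ∧
      NL (∏ j, s j) (LLs cls (fun j _ => κ j) s ∅) = F.card := by
    unfold NL
    exact ⟨_, fun d => mem_filter, rfl⟩
  set A := (Ker (Pk cls κ s 1) (Qk cls s 1)).image (fun S => ((∏ p ∈ S, p : ℕ), (1 : ℕ))) with hA
  set B := (Ker (Pk cls κ s 2) (Qk cls s 2)).image (fun S => ((1 : ℕ), (∏ p ∈ S, p : ℕ))) with hB
  have hinj : ∀ k : Fin 4, ∀ S ∈ Ker (Pk cls κ s k) (Qk cls s k),
      ∀ S' ∈ Ker (Pk cls κ s k) (Qk cls s k), (∏ p ∈ S, p : ℕ) = ∏ p ∈ S', p → S = S' := by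
    intro k S hS S' hS' h5
    rw [Ker, mem_filter, mem_powerset] at hS hS'
    rw [← Nat.primeFactors_prod (fun p hp => Pk_prime cls κ s k p (hS.1 hp)),
      ← Nat.primeFactors_prod (fun p hp => Pk_prime cls κ s k p (hS'.1 hp)), h5]
  have hcA : A.card = (Ker (Pk cls κ s 1) (Qk cls s 1)).card := by
    rw [hA]
    apply card_image_of_injOn
    intro S hS S' hS' h
    exact hinj 1 S hS S' hS' (Prod.ext_iff.1 h).1
  have hcB : B.card = (Ker (Pk cls κ s 2) (Qk cls s 2)).card := by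
    rw [hB]
    apply card_image_of_injOn
    intro S hS S' hS' h
    exact hinj 2 S hS S' hS' (Prod.ext_iff.1 h).2
  have hAF : A ⊆ F := by
    intro d hd
    rw [hA, mem_image] at hd
    obtain ⟨S, hS, rfl⟩ := hd
    obtain ⟨hd1, hd2, hd3⟩ := ker_data hco 1 S hS
    rw [hF, mem_product]
    refine ⟨⟨Nat.mem_divisors.2 ⟨hd1, hm0⟩, Nat.mem_divisors.2 ⟨one_dvd _, hm0⟩⟩, ?_⟩
    intro p hp
    have hpp := Nat.prime_of_mem_primeFactors hp
    obtain ⟨hv1, hg1⟩ := hone p hpp
    show LLs cls (fun j _ => κ j) s ∅ p (dv p ((∏ p ∈ S, p : ℕ) : ℤ)) (dv p ((1 : ℕ) : ℤ))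
      (sgn p ((∏ p ∈ S, p : ℕ) : ℤ)) (sgn p ((1 : ℕ) : ℤ))
    rw [hv1, hg1]
    intro j hj
    have hpj : p ∈ (s j).primeFactors := Nat.mem_primeFactors.2 ⟨hpp, hj, hs0 j⟩
    unfold LL
    rcases hcls j with h | h | h
    · obtain ⟨hb1, hb2⟩ := hd2 j p hpj (by rw [h]; decide)
      rw [h, if_pos rfl, hb1, hb2]
      simp
    · rw [h, if_neg (by decide), if_pos rfl]
      rcases hd3 j p hpj with h4 | h4
      · exact ⟨rfl, h4.symm⟩
      · exact absurd h h4
    · obtain ⟨hb1, hb2⟩ := hd2 j p hpj (by rw [h]; decide)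
      rw [h, if_neg (by decide), if_neg (by decide), if_pos rfl, hb1, hb2]
      simp
  have hBF : B ⊆ F := by
    intro d hd
    rw [hB, mem_image] at hd
    obtain ⟨S, hS, rfl⟩ := hd
    obtain ⟨hd1, hd2, hd3⟩ := ker_data hco 2 S hS
    rw [hF, mem_product]
    refine ⟨⟨Nat.mem_divisors.2 ⟨one_dvd _, hm0⟩, Nat.mem_divisors.2 ⟨hd1, hm0⟩⟩, ?_⟩
    intro p hp
    have hpp := Nat.prime_of_mem_primeFactors hp
    obtain ⟨hv1, hg1⟩ := hone p hpp
    show LLs cls (fun j _ => κ j) s ∅ p (dv p ((1 : ℕ) : ℤ)) (dv p ((∏ p ∈ S, p : ℕ) : ℤ))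
      (sgn p ((1 : ℕ) : ℤ)) (sgn p ((∏ p ∈ S, p : ℕ) : ℤ))
    rw [hv1, hg1]
    intro j hj
    have hpj : p ∈ (s j).primeFactors := Nat.mem_primeFactors.2 ⟨hpp, hj, hs0 j⟩
    unfold LL
    rcases hcls j with h | h | h
    · obtain ⟨hb1, hb2⟩ := hd2 j p hpj (by rw [h]; decide)
      rw [h, if_pos rfl, hb1, hb2]
      simp
    · obtain ⟨hb1, hb2⟩ := hd2 j p hpj (by rw [h]; decide)
      rw [h, if_neg (by decide), if_pos rfl, hb1, hb2]
      simp
    · rw [h, if_neg (by decide), if_neg (by decide), if_pos rfl]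
      rcases hd3 j p hpj with h4 | h4
      · exact ⟨rfl, h4.symm⟩
      · exact absurd h h4
  have hAB : (A ∩ B).card ≤ 1 := by
    rw [card_le_one]
    intro a ha b hb
    rw [mem_inter, hA, hB, mem_image, mem_image] at ha hb
    obtain ⟨⟨S, _, rfl⟩, ⟨S', _, h1⟩⟩ := ha
    obtain ⟨⟨T, _, rfl⟩, ⟨T', _, h2⟩⟩ := hb
    have e1 := (Prod.ext_iff.1 h1).1
    have e2 := (Prod.ext_iff.1 h2).1
    simp only at e1 e2
    rw [← e1, ← e2]
  have h7 : A.card + B.card ≤ F.card + 1 := by
    have h8 := card_union_add_card_inter A B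
    have h9 := card_le_card (union_subset hAF hBF)
    omega
  have h8 : ((Ker (Pk cls κ s 1) (Qk cls s 1)).card : ℝ) +
      ((Ker (Pk cls κ s 2) (Qk cls s 2)).card : ℝ) ≤ (F.card : ℝ) + 1 := by
    rw [← hcA, ← hcB]
    exact_mod_cast h7
  rw [hNL]
  linarith

end Pool.Agent.V7H58.CY
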