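import Pool.Agent.V7H45.NS

/-!
# Lower bounds for `∑ (δ / p) / p`, `δ = -1, -3`
-/

set_option autoImplicit false

namespace Pool.Agent.V7H58.CY

open Finset Filter Topology
open Pool.Agent.W262.RK Pool.Agent.W586.RK.UB

lemma exp_two_mul_le {x : ℝ} (h0 : 0 ≤ x) (h1 : x < 1) : Real.exp (2 * x) * (1 - x) ≤ 1 + x := by
  have h2 := Real.hasSum_log_sub_log_of_abs_lt_one (x := x) (by rw [abs_of_nonneg h0]; exact h1)
  have h3 := h2.summable.sum_le_tsum {0} (fun k _ => by positivity)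
  rw [h2.tsum_eq] at h3
  simp at h3
  have h4 : Real.exp (2 * x) ≤ Real.exp (Real.log (1 + x) - Real.log (1 - x)) :=
    Real.exp_le_exp.2 (by linarith)
  rw [Real.exp_sub, Real.exp_log (by linarith), Real.exp_log (by linarith),
    le_div_iff₀ (by linarith)] at h4
  exact h4

lemma local_le {g u : ℝ} (h0 : 0 ≤ g) (h1 : g < 1) (hu : |u| ≤ 1) :
    Real.exp ((1 - u) * g) * (1 - g) ≤ 1 - g * u := by
  obtain ⟨hu1, hu2⟩ := abs_le.1 hu
  set θ := (1 - u) / 2 with hθ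
  have hc := (convexOn_exp).2 (Set.mem_univ (2 * g)) (Set.mem_univ (0 : ℝ))
    (by linarith : 0 ≤ θ) (by linarith : 0 ≤ 1 - θ) (by ring)
  simp only [smul_eq_mul, mul_zero, add_zero, Real.exp_zero, mul_one] at hc
  have e1 : (1 - u) * g = θ * (2 * g) := by rw [hθ]; ring
  rw [e1]
  have h2 := exp_two_mul_le h0 h1
  have h3 : Real.exp (θ * (2 * g)) * (1 - g) ≤ (θ * Real.exp (2 * g) + (1 - θ)) * (1 - g) :=
    mul_le_mul_of_nonneg_right hc (by linarith)
  have h4 : θ * (Real.exp (2 * g) * (1 - g)) ≤ θ * (1 + g) :=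
    mul_le_mul_of_nonneg_left h2 (by linarith)
  have h5 : (θ * Real.exp (2 * g) + (1 - θ)) * (1 - g) =
      θ * (Real.exp (2 * g) * (1 - g)) + (1 - θ) * (1 - g) := by ring
  have h6 : θ * (1 + g) + (1 - θ) * (1 - g) = 1 - g * u := by rw [hθ]; ring
  linarith

/-- Euler products: the sum of `1 - f` over the primes -/
lemma euler_upper (f : ℕ →*₀ ℝ) (hf1 : ∀ n, |f n| ≤ 1) (s : ℝ) (hs : 0 < s) (hs1 : s ≤ 1)
    (T : Finset Nat.Primes) :
    Summable (fun n : ℕ => (n : ℝ) ^ (-(1 + s)) * f n) ∧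
    Real.exp (∑ p ∈ T, (1 - f (p : ℕ)) * ((p : ℕ) : ℝ) ^ (-(1 + s))) *
      ∑' n : ℕ, (n : ℝ) ^ (-(1 + s)) * f n ≤ 2 / s := by
  obtain ⟨hsum, hle⟩ := Pool.Agent.H304R3.MO.zeta_bound s hs hs1
  let g : ℕ →*₀ ℝ :=
    { toFun := fun n => (n : ℝ) ^ (-(1 + s))
      map_zero' := by
        rw [Nat.cast_zero]
        exact Real.zero_rpow (by linarith)
      map_one' := by simp
      map_mul' := fun a b => by
        rw [Nat.cast_mul, Real.mul_rpow (Nat.cast_nonneg _) (Nat.cast_nonneg _)] }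
  have hg : ∀ n : ℕ, g n = (n : ℝ) ^ (-(1 + s)) := fun n => rfl
  let h : ℕ →*₀ ℝ :=
    { toFun := fun n => g n * f n
      map_zero' := by simp
      map_one' := by simp
      map_mul' := fun a b => by
        rw [map_mul, map_mul]; ring }
  have hh : ∀ n : ℕ, h n = (n : ℝ) ^ (-(1 + s)) * f n := fun n => rfl
  have hgn : ∀ n, 0 ≤ g n := fun n => by rw [hg]; exact Real.rpow_nonneg (Nat.cast_nonneg _) _
  have hnorm : Summable (fun n => ‖g n‖) := by
    refine hsum.congr fun n => ?_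
    rw [Real.norm_of_nonneg (hgn n), hg]
  have hhg : ∀ n, |h n| ≤ g n := by
    intro n
    rw [hh, ← hg, abs_mul, abs_of_nonneg (hgn n)]
    have := mul_le_mul_of_nonneg_left (hf1 n) (hgn n)
    linarith
  have hnorm' : Summable (fun n => ‖h n‖) := by
    refine Summable.of_nonneg_of_le (fun n => norm_nonneg _) (fun n => hhg n) (f := fun n => g n) ?_
    exact hsum
  have hp1 := EulerProduct.eulerProduct_completely_multiplicative_hasProd (f := g) hnorm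
  have hp2 := EulerProduct.eulerProduct_completely_multiplicative_hasProd (f := h) hnorm'
  have hlt : ∀ p : Nat.Primes, g p < 1 := by
    intro p
    have h2 : (1 : ℝ) < ((p : ℕ) : ℝ) := by exact_mod_cast p.2.one_lt
    rw [hg]
    exact Real.rpow_lt_one_of_one_lt_of_neg h2 (by linarith)
  have hlt' : ∀ p : Nat.Primes, h p < 1 := fun p =>
    lt_of_le_of_lt ((le_abs_self _).trans (hhg p)) (hlt p)
  set E : Nat.Primes → ℝ := fun p =>
    Real.exp ((1 - f (p : ℕ)) * ((p : ℕ) : ℝ) ^ (-(1 + s))) with hE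
  have hE1 : ∀ p, 1 ≤ E p := by
    intro p
    refine Real.one_le_exp (mul_nonneg ?_ (Real.rpow_nonneg (Nat.cast_nonneg _) _))
    linarith [(abs_le.1 (hf1 p)).2]
  -- the local inequality
  have hloc : ∀ p : Nat.Primes, E p * (1 - h p)⁻¹ ≤ (1 - g p)⁻¹ := by
    intro p
    have h1 : 0 < 1 - h p := by linarith [hlt' p]
    have h2 : 0 < 1 - g p := by linarith [hlt p]
    have h3 := local_le (hgn p) (hlt p) (hf1 p)
    rw [← div_eq_mul_inv, div_le_iff₀ h1, ← div_eq_inv_mul, le_div_iff₀ h2]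
    rw [hE]
    exact h3
  have hpos : ∀ p : Nat.Primes, 0 < (1 - h p)⁻¹ := fun p => inv_pos.2 (by linarith [hlt' p])
  refine ⟨hnorm'.of_norm, ?_⟩
  have key : (∏ p ∈ T, E p) * ∑' n, h n ≤ ∑' n, g n := by
    have ha : Tendsto (fun T' : Finset Nat.Primes => (∏ p ∈ T, E p) * ∏ p ∈ T', (1 - h p)⁻¹) atTop
        (𝓝 ((∏ p ∈ T, E p) * ∑' n, h n)) := Tendsto.const_mul _ hp2
    refine le_of_tendsto_of_tendsto ha hp1 ?_
    filter_upwards [eventually_ge_atTop T] with T' hT'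
    have h4 : ∏ p ∈ T', E p * (1 - h p)⁻¹ ≤ ∏ p ∈ T', (1 - g p)⁻¹ :=
      prod_le_prod (fun p _ => mul_nonneg (zero_le_one.trans (hE1 p)) (hpos p).le)
        fun p _ => hloc p
    rw [prod_mul_distrib] at h4
    have h5 : ∏ p ∈ T, E p ≤ ∏ p ∈ T', E p :=
      prod_le_prod_of_subset_of_one_le hT' (fun p _ => zero_le_one.trans (hE1 p))
        fun p _ _ => hE1 p
    have h6 : 0 ≤ ∏ p ∈ T', (1 - h p)⁻¹ := prod_nonneg fun p _ => (hpos p).le
    exact (mul_le_mul_of_nonneg_right h5 h6).trans h4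
  rw [Real.exp_sum]
  refine key.trans ?_
  simpa [hg] using hle

/-- a lower bound of the value of the `L` function -/
lemma L_low (f : ℕ → ℝ) (s : ℝ) {q : ℕ} (hq : 1 ≤ q) {c : ℝ}
    (hsum : Summable (fun n : ℕ => (n : ℝ) ^ (-(1 + s)) * f n))
    (h0 : c ≤ ∑ r ∈ range q, ((r : ℕ) : ℝ) ^ (-(1 + s)) * f r)
    (hk : ∀ k, 0 ≤ ∑ r ∈ range q, ((q * k + r : ℕ) : ℝ) ^ (-(1 + s)) * f (q * k + r)) :
    c ≤ ∑' n : ℕ, (n : ℝ) ^ (-(1 + s)) * f n := by
  have h1 := hsum.hasSum.tendsto_sum_nat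
  have h2 : Tendsto (fun k : ℕ => q * (k + 1)) atTop atTop := by
    refine tendsto_atTop_mono (fun k => ?_) tendsto_id
    show k ≤ q * (k + 1)
    nlinarith
  refine ge_of_tendsto (h1.comp h2) (Eventually.of_forall fun k => ?_)
  show c ≤ ∑ n ∈ range (q * (k + 1)), (n : ℝ) ^ (-(1 + s)) * f n
  induction k with
  | zero => simpa using h0
  | succ k ih =>
    rw [show q * (k + 1 + 1) = q * (k + 1) + q by ring, sum_range_add]
    have := hk (k + 1)
    linarith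

/-- the sum over the primes -/
theorem low_bound (f : ℕ →*₀ ℝ) (f_abs : ∀ n, |f n| ≤ 1) {c : ℝ} (hc : 0 < c)
    (hL : ∀ s : ℝ, 0 < s → s ≤ 1 → c ≤ ∑' n : ℕ, (n : ℝ) ^ (-(1 + s)) * f n) :
    ∃ C : ℝ, ∀ y : ℕ, 3 ≤ y → ∑ p ∈ (Icc 1 y).filter Nat.Prime, -f p / (p : ℝ) ≤ C := by
  obtain ⟨C1, hC1⟩ := Pool.Agent.Helper256.KM.mertens_log
  obtain ⟨C2, hC2⟩ := Pool.Agent.Helper256.KM.mertens_inv
  have hC10 : 0 ≤ C1 := (abs_nonneg _).trans (hC1 1 le_rfl)
  have hl3 : 1 ≤ Real.log 3 := by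
    rw [Real.le_log_iff_exp_le (by norm_num)]
    linarith [Real.exp_one_lt_d9]
  refine ⟨Real.log 2 - Real.log c + C2 + 2 + 2 * C1, ?_⟩
  intro y hy3
  have hLy : 1 ≤ Real.log y :=
    hl3.trans (Real.log_le_log (by norm_num) (by exact_mod_cast hy3))
  set s : ℝ := 1 / Real.log y with hs
  have hLy0 : 0 < Real.log y := by linarith
  have hs0 : 0 < s := by positivity
  have hs1 : s ≤ 1 := by rw [hs, div_le_one hLy0]; exact hLy
  set T : Finset Nat.Primes := Finset.subtype Nat.Prime (Icc 1 y) with hT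
  have hconv : ∀ g : ℕ → ℝ, ∑ p ∈ T, g (p : ℕ) = ∑ p ∈ (Icc 1 y).filter Nat.Prime, g p := by
    intro g
    exact Finset.sum_subtype_eq_sum_filter (s := Icc 1 y) (p := Nat.Prime) g
  obtain ⟨hsum, hEL⟩ := euler_upper f f_abs s hs0 hs1 T
  have hLb := hL s hs0 hs1
  have h2s : 2 / s = 2 * Real.log y := by
    rw [hs]; field_simp
  rw [h2s] at hEL
  have h1 : ∑ p ∈ T, (1 - f (p : ℕ)) * ((p : ℕ) : ℝ) ^ (-(1 + s)) ≤
      Real.log 2 + Real.log (Real.log y) - Real.log c := by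
    have h2 := (mul_le_mul_of_nonneg_left hLb (Real.exp_pos _).le).trans hEL
    rw [← le_div_iff₀ hc] at h2
    rw [← Real.log_mul (by positivity) (by linarith), ← Real.log_div (by positivity) hc.ne']
    rw [Real.le_log_iff_exp_le (by positivity)]
    exact h2
  have h3 : ∑ p ∈ T, (1 - f (p : ℕ)) * ((p : ℕ) : ℝ) ^ (-(1 + s)) ≥
      ∑ p ∈ (Icc 1 y).filter Nat.Prime, ((1 : ℝ) / p + -f p / p - 2 * s * (Real.log p / p)) := by
    rw [ge_iff_le, ← hconv (fun p => (1 : ℝ) / p + -f p / p - 2 * s * (Real.log p / p))]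
    refine sum_le_sum fun p _ => ?_
    have hp1 : (1 : ℝ) < ((p : ℕ) : ℝ) := by exact_mod_cast p.2.one_lt
    have hp0 : (0 : ℝ) < ((p : ℕ) : ℝ) := by linarith
    have hlp : 0 < Real.log ((p : ℕ) : ℝ) := Real.log_pos hp1
    have h4 : ((p : ℕ) : ℝ) ^ (-(1 + s)) = ((p : ℕ) : ℝ) ^ (-s) / (p : ℕ) := by
      rw [show -(1 + s) = -s - 1 by ring, Real.rpow_sub hp0, Real.rpow_one]
    have h5 : 1 - s * Real.log ((p : ℕ) : ℝ) ≤ ((p : ℕ) : ℝ) ^ (-s) := by
      rw [Real.rpow_def_of_pos hp0]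
      have := Real.add_one_le_exp (Real.log ((p : ℕ) : ℝ) * -s)
      linarith
    have h6 := abs_le.1 (f_abs p)
    have h7 : (1 - f (p : ℕ)) * (1 - s * Real.log ((p : ℕ) : ℝ)) ≤
        (1 - f (p : ℕ)) * ((p : ℕ) : ℝ) ^ (-s) := mul_le_mul_of_nonneg_left h5 (by linarith)
    have h8 : (1 - f (p : ℕ)) * (s * Real.log ((p : ℕ) : ℝ)) ≤ 2 * (s * Real.log ((p : ℕ) : ℝ)) :=
      mul_le_mul_of_nonneg_right (by linarith) (by positivity)
    have h9 : (1 - f (p : ℕ) - 2 * (s * Real.log ((p : ℕ) : ℝ))) ≤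
        (1 - f (p : ℕ)) * ((p : ℕ) : ℝ) ^ (-s) := by linarith
    calc (1 : ℝ) / (p : ℕ) + -f p / (p : ℕ) - 2 * s * (Real.log (p : ℕ) / (p : ℕ))
        = (1 - f (p : ℕ) - 2 * (s * Real.log ((p : ℕ) : ℝ))) / (p : ℕ) := by ring
      _ ≤ ((1 - f (p : ℕ)) * ((p : ℕ) : ℝ) ^ (-s)) / (p : ℕ) :=
          div_le_div_of_nonneg_right h9 hp0.le
      _ = _ := by rw [h4]; ring
  rw [sum_sub_distrib, sum_add_distrib, ← mul_sum] at h3
  have h10 := (abs_le.1 (hC2 y hy3)).1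
  have h11 := (abs_le.1 (hC1 y (by omega))).2
  have h12 : 2 * s * ∑ p ∈ (Icc 1 y).filter Nat.Prime, Real.log p / p ≤ 2 + 2 * C1 := by
    have h13 : 2 * s * ∑ p ∈ (Icc 1 y).filter Nat.Prime, Real.log p / p ≤
        2 * s * (Real.log y + C1) := mul_le_mul_of_nonneg_left (by linarith) (by positivity)
    have h14 : 2 * s * (Real.log y + C1) = 2 + 2 * (s * C1) := by
      rw [hs]; field_simp
    have h15 : s * C1 ≤ 1 * C1 := mul_le_mul_of_nonneg_right hs1 hC10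
    linarith
  linarith

lemma rpow_anti {s : ℝ} (hs : 0 < s) {a b : ℕ} (ha : 0 < a) (hab : a ≤ b) :
    ((b : ℕ) : ℝ) ^ (-(1 + s)) ≤ ((a : ℕ) : ℝ) ^ (-(1 + s)) :=
  Real.rpow_le_rpow_of_nonpos (by exact_mod_cast ha) (by exact_mod_cast hab) (by linarith)

lemma rpow_inv_le {s : ℝ} (hs : 0 < s) {a : ℕ} (ha : 1 ≤ a) :
    ((a : ℕ) : ℝ) ^ (-(1 + s)) ≤ 1 / (a : ℝ) := by
  have ha1 : (1 : ℝ) ≤ a := by exact_mod_cast ha
  calc ((a : ℕ) : ℝ) ^ (-(1 + s)) ≤ (a : ℝ) ^ (-1 : ℝ) :=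
        Real.rpow_le_rpow_of_exponent_le ha1 (by linarith)
    _ = 1 / (a : ℝ) := by rw [Real.rpow_neg_one, one_div]

lemma ff_even (κ : ℤ) (n : ℕ) (h : Even n) : ff κ 1 false n = 0 := by
  rw [ff_apply, if_neg (by rwa [Nat.not_odd_iff_even])]

lemma ff_odd (κ : ℤ) (n : ℕ) (h : Odd n) : ff κ 1 false n = ((jacobiSym κ n : ℤ) : ℝ) := by
  rw [ff_apply, if_pos h]
  simp [Jr, x4]

lemma ff_mod {κ : ℤ} (q k r : ℕ) (hq : 4 * κ.natAbs * 1 = q) :
    ff κ 1 false (q * k + r) = ff κ 1 false r := by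
  have h := (ff_per κ 1 false).nat_mul k r
  rw [hq] at h
  rw [← h]
  congr 1
  rw [Nat.cast_id]
  ring

lemma L_one (s : ℝ) (hs : 0 < s) (hs1 : s ≤ 1) :
    (1 / 2 : ℝ) ≤ ∑' n : ℕ, (n : ℝ) ^ (-(1 + s)) * ff (-1) 1 false n := by
  have v : ff (-1) 1 false 0 = 0 ∧ ff (-1) 1 false 1 = 1 ∧ ff (-1) 1 false 2 = 0 ∧
      ff (-1) 1 false 3 = -1 := by
    refine ⟨ff_even _ _ (by decide), ?_, ff_even _ _ (by decide), ?_⟩
    · rw [ff_odd _ _ (by decide)]; norm_num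
    · rw [ff_odd _ _ (by decide)]; norm_num
  obtain ⟨v0, v1, v2, v3⟩ := v
  refine L_low _ s (q := 4) (by norm_num)
    (euler_upper _ (ff_abs (-1) 1 false) s hs hs1 ∅).1 ?_ fun k => ?_
  · have h1 := rpow_inv_le hs (a := 3) (by norm_num)
    simp only [sum_range_succ, sum_range_zero, v0, v1, v2, v3]
    simp only [Nat.cast_one, Real.one_rpow]
    norm_num at h1 ⊢
    linarith
  · simp only [ff_mod 4 k _ (by norm_num : 4 * (-1 : ℤ).natAbs * 1 = 4)]
    simp only [sum_range_succ, sum_range_zero, v0, v1, v2, v3]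
    have h1 := rpow_anti hs (a := 4 * k + 1) (b := 4 * k + 3) (by omega) (by omega)
    linarith

lemma L_three (s : ℝ) (hs : 0 < s) (hs1 : s ≤ 1) :
    (1 / 2 : ℝ) ≤ ∑' n : ℕ, (n : ℝ) ^ (-(1 + s)) * ff (-3) 1 false n := by
  have v0 : ff (-3) 1 false 0 = 0 := ff_even _ _ (by decide)
  have v1 : ff (-3) 1 false 1 = 1 := by rw [ff_odd _ _ (by decide)]; norm_num
  have v2 : ff (-3) 1 false 2 = 0 := ff_even _ _ (by decide)
  have v3 : ff (-3) 1 false 3 = 0 := by rw [ff_odd _ _ (by decide)]; norm_num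
  have v4 : ff (-3) 1 false 4 = 0 := ff_even _ _ (by decide)
  have v5 : ff (-3) 1 false 5 = -1 := by rw [ff_odd _ _ (by decide)]; norm_num
  have v6 : ff (-3) 1 false 6 = 0 := ff_even _ _ (by decide)
  have v7 : ff (-3) 1 false 7 = 1 := by rw [ff_odd _ _ (by decide)]; norm_num
  have v8 : ff (-3) 1 false 8 = 0 := ff_even _ _ (by decide)
  have v9 : ff (-3) 1 false 9 = 0 := by rw [ff_odd _ _ (by decide)]; norm_num
  have v10 : ff (-3) 1 false 10 = 0 := ff_even _ _ (by decide)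
  have v11 : ff (-3) 1 false 11 = -1 := by rw [ff_odd _ _ (by decide)]; norm_num
  refine L_low _ s (q := 12) (by norm_num)
    (euler_upper _ (ff_abs (-3) 1 false) s hs hs1 ∅).1 ?_ fun k => ?_
  · have h1 := rpow_inv_le hs (a := 5) (by norm_num)
    have h2 := rpow_anti hs (a := 7) (b := 11) (by omega) (by omega)
    simp only [sum_range_succ, sum_range_zero, v0, v1, v2, v3, v4, v5, v6, v7, v8, v9, v10, v11]
    simp only [Nat.cast_one, Real.one_rpow]
    norm_num at h1 h2 ⊢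
    linarith
  · simp only [ff_mod 12 k _ (by norm_num : 4 * (-3 : ℤ).natAbs * 1 = 12)]
    simp only [sum_range_succ, sum_range_zero, v0, v1, v2, v3, v4, v5, v6, v7, v8, v9, v10, v11]
    have h1 := rpow_anti hs (a := 12 * k + 1) (b := 12 * k + 5) (by omega) (by omega)
    have h2 := rpow_anti hs (a := 12 * k + 7) (b := 12 * k + 11) (by omega) (by omega)
    linarith

/-- the lower bound for the sums over the primes in `(z, y]` -/
theorem low_PS (δ : ℤ) (hδ : δ = -1 ∨ δ = -3) (z : ℕ) : ∃ C : ℝ, ∀ y : ℕ, z < y →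
    ∑ p ∈ PS z y, -Jr δ p / (p : ℝ) ≤ C := by
  have hL : ∀ s : ℝ, 0 < s → s ≤ 1 →
      (1 / 2 : ℝ) ≤ ∑' n : ℕ, (n : ℝ) ^ (-(1 + s)) * ff δ 1 false n := by
    rcases hδ with h | h <;> rw [h]
    · exact L_one
    · exact L_three
  obtain ⟨C, hC⟩ := low_bound (ff δ 1 false) (ff_abs δ 1 false) (by norm_num : (0 : ℝ) < 1 / 2) hL
  have h2 : ∀ y : ℕ, 2 < y → ∑ p ∈ PS 2 y, -Jr δ p / (p : ℝ) ≤ C := by
    intro y hy
    have h1 := hC y (by omega)
    have h2 : ∑ p ∈ (Icc 1 y).filter Nat.Prime, -ff δ 1 false p / (p : ℝ) =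
        ∑ p ∈ PS 2 y, -Jr δ p / (p : ℝ) := by
      have hsub : PS 2 y ⊆ (Icc 1 y).filter Nat.Prime := by
        intro p hp
        simp only [PS, mem_filter, mem_Ioc] at hp
        rw [mem_filter, mem_Icc]
        exact ⟨⟨by omega, hp.1.2⟩, hp.2⟩
      rw [← sum_subset hsub]
      · apply sum_congr rfl
        intro p hp
        simp only [PS, mem_filter, mem_Ioc] at hp
        have hodd : Odd p := hp.2.odd_of_ne_two (by omega)
        rw [ff_odd _ _ hodd]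
        rfl
      · intro p hp hp2
        simp only [PS, mem_filter, mem_Ioc, not_and] at hp2
        rw [mem_filter, mem_Icc] at hp
        have : p = 2 := by
          by_contra h
          have := hp.2.two_le
          exact hp2 ⟨by omega, hp.1.2⟩ hp.2
        rw [this, ff_even _ _ (by decide)]
        simp
    rw [h2] at h1
    exact h1
  exact ⟨_, Pool.Agent.V7H45.NS.PS_shift (fun p => -Jr δ p)
    (fun p => by rw [abs_neg]; exact Jr_abs δ p) 2 z C h2⟩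

end Pool.Agent.V7H58.CY
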