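import Pool.Agent.V7H45.CY.Spec
import Pool.Agent.V7H45.G8.Inp
import Pool.Agent.V7H58.CY.Low

/-!
# JOB D: decoupling
-/

set_option autoImplicit false

namespace Pool.Agent.V7H58.CY

open Finset Pool.Agent.W262.RK Pool.Agent.W307.RT Pool.Agent.V7H45.G8 Pool.Agent.W655.RK
open Pool.Agent.V7H45.CY

/-- the other weights -/
noncomputable def psi (δ : ℤ) (c p : ℕ) : ℝ := (1 - Jr δ p) / 2 / ((p : ℝ) - c)

lemma psi_bound {δ : ℤ} {c z p : ℕ} (hz : 2 * c + 4 ≤ z) (hp : z < p) :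
    0 ≤ psi δ c p ∧ psi δ c p ≤ 1 / 2 * (1 / (p : ℝ)) + 1 / 2 * (-Jr δ p / (p : ℝ)) +
      2 * c * (1 / (p : ℝ) ^ 2) := by
  have hp1 : (2 * c + 5 : ℝ) ≤ p := by exact_mod_cast (by omega : 2 * c + 5 ≤ p)
  have hc : (0 : ℝ) ≤ c := Nat.cast_nonneg c
  have hp0 : (0 : ℝ) < p := by linarith
  have hpc : (0 : ℝ) < (p : ℝ) - c := by linarith
  obtain ⟨hJ0, hJ1⟩ := abs_le.1 (abs_Jr_le δ p)
  unfold psi
  set W := (1 - Jr δ p) / 2 with hW
  have hW0 : 0 ≤ W := by rw [hW]; linarith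
  have hW1 : W ≤ 1 := by rw [hW]; linarith
  refine ⟨div_nonneg hW0 hpc.le, ?_⟩
  have h1 : W / ((p : ℝ) - c) = W / p + W * (c / (p * (p - c))) := by
    field_simp
    ring
  have h2 : W / p = 1 / 2 * (1 / (p : ℝ)) + 1 / 2 * (-Jr δ p / (p : ℝ)) := by
    rw [hW]; ring
  rw [h1, h2]
  have h3 : W * (c / (p * (p - c))) ≤ 1 * (c / (p * (p - c))) :=
    mul_le_mul_of_nonneg_right hW1 (by positivity)
  have h4 : (c : ℝ) / (p * (p - c)) ≤ 2 * c * (1 / (p : ℝ) ^ 2) := by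
    rw [mul_one_div, div_le_div_iff₀ (by positivity) (by positivity)]
    have h5 : (p : ℝ) ^ 2 ≤ 2 * (p * (p - c)) := by nlinarith
    have h6 := mul_le_mul_of_nonneg_left h5 hc
    linarith
  linarith

/-- the sum over the removed parts -/
lemma psi_sum (δ : ℤ) (hδ : δ = -1 ∨ δ = -3) {c z : ℕ} (hz : 2 * c + 4 ≤ z) :
    ∃ C : ℝ, 0 ≤ C ∧ ∀ y, z < y → ∑ d ∈ (PP z y).divisors, ∏ p ∈ d.primeFactors, psi δ c p ≤
      C * (Real.log y) ^ (1 / 2 : ℝ) := by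
  obtain ⟨C0, hC0, hmer⟩ := mertens
  obtain ⟨C1, hC1⟩ := low_PS δ hδ z
  obtain ⟨K, hK, hsq⟩ := sum_inv_sq
  have hfull := full_gen (w := 1 / 2) (B := C0 + |C1| + 2 * c * K) (z := z)
    (φ := fun p => psi δ c p) (by norm_num) le_rfl (by omega) (by positivity)
    (fun y p hp => (psi_bound hz (PS_lt hp)).1) (by
      intro y hy
      have h1 := hmer z y (by omega)
      have h2 := (hC1 y hy).trans (le_abs_self C1)
      have h3 := mul_le_mul_of_nonneg_left (hsq (PS z y)) (by positivity : (0 : ℝ) ≤ 2 * c)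
      have h4 : ∑ p ∈ PS z y, psi δ c p ≤ 1 / 2 * ∑ p ∈ PS z y, 1 / (p : ℝ) +
          1 / 2 * ∑ p ∈ PS z y, -Jr δ p / (p : ℝ) + 2 * c * ∑ p ∈ PS z y, 1 / (p : ℝ) ^ 2 := by
        rw [mul_sum, mul_sum, mul_sum, ← sum_add_distrib, ← sum_add_distrib]
        exact sum_le_sum fun p hp => (psi_bound hz (PS_lt hp)).2
      have h5 := abs_nonneg C1
      linarith)
  exact ⟨_, (Real.exp_pos _).le, hfull.1⟩

variable {n : ℕ}

/-- the removed part -/
noncomputable def rem (δ : ℤ) (m : ℕ) : ℕ := ∏ p ∈ m.primeFactors.filter (fun p => ¬ Jr δ p = 1), p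

lemma ps_primeFactors (δ : ℤ) (m : ℕ) :
    (ps δ m).primeFactors = m.primeFactors.filter (fun p => Jr δ p = 1) :=
  Nat.primeFactors_prod fun _ hp => Nat.prime_of_mem_primeFactors (mem_filter.1 hp).1

lemma rem_primeFactors (δ : ℤ) (m : ℕ) :
    (rem δ m).primeFactors = m.primeFactors.filter (fun p => ¬ Jr δ p = 1) :=
  Nat.primeFactors_prod fun _ hp => Nat.prime_of_mem_primeFactors (mem_filter.1 hp).1

lemma ps_mul_rem (δ : ℤ) {m : ℕ} (h : Squarefree m) : ps δ m * rem δ m = m := by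
  unfold ps rem
  rw [prod_filter_mul_prod_filter_not, Nat.prod_primeFactors_of_squarefree h]

lemma Jr_pm {δ : ℤ} (hδ : δ = -1 ∨ δ = -3) {p : ℕ} (hp : p.Prime) (h : 4 < p) :
    Jr δ p = 1 ∨ Jr δ p = -1 := by
  have hg : Int.gcd δ p = 1 := by
    rcases hδ with h1 | h1 <;> rw [h1]
    · simp
    · have h3 : Nat.Coprime 3 p := (Nat.coprime_primes Nat.prime_three hp).2 (by omega)
      simpa [Int.gcd] using h3
  unfold Jr
  rcases jacobiSym.eq_one_or_neg_one hg with h1 | h1 <;> rw [h1] <;> norm_num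

lemma mem_T {z y : ℕ} {s : Fin n → ℕ} : s ∈ Tup (Fin n) z y ↔
    (∀ i, s i ∈ (PP z y).divisors) ∧ ∀ i j, i ≠ j → (s i).Coprime (s j) := by
  simp only [Tup, mem_filter, Fintype.mem_piFinset]

lemma pos_dvd (δ : ℤ) (b0 : Fin n) {z y : ℕ} {s : Fin n → ℕ} (hs : s ∈ Tup (Fin n) z y) (j : Fin n) :
    pos δ b0 s j ∣ s j := by
  unfold pos
  split_ifs with h
  · exact Dvd.intro _ (ps_mul_rem δ (dv_squarefree ((mem_T.1 hs).1 j)))
  · exact dvd_rfl

lemma dv_of_dvd {z y d e : ℕ} (hd : d ∈ (PP z y).divisors) (h : e ∣ d) : e ∈ (PP z y).divisors :=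
  Nat.mem_divisors.2 ⟨h.trans (Nat.dvd_of_mem_divisors hd), PP_ne_zero z y⟩

lemma pos_mem (δ : ℤ) (b0 : Fin n) {z y : ℕ} {s : Fin n → ℕ} (hs : s ∈ Tup (Fin n) z y) :
    pos δ b0 s ∈ Tup (Fin n) z y := by
  have h := mem_T.1 hs
  refine mem_T.2 ⟨fun i => dv_of_dvd (h.1 i) (pos_dvd δ b0 hs i), fun i j hij => ?_⟩
  exact ((h.2 i j hij).coprime_dvd_left (pos_dvd δ b0 hs i)).coprime_dvd_right (pos_dvd δ b0 hs j)

/-- the weights of the new tuple -/
noncomputable def Wn (D : Fin n → ℤ) (b0 : Fin n) (δ : ℤ) (c : ℕ) (s : Fin n → ℕ) : ℝ :=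
  ∏ j, gr (if j = b0 then δ else D j) (if j = b0 then 1 / 2 else 1) c (s j)

lemma weight_eq (D : Fin n → ℤ) (b0 : Fin n) {δ : ℤ} (hδ : δ = -1 ∨ δ = -3) {c z y : ℕ}
    (hD : D b0 = 0) (hz : 2 * c + 4 ≤ z) {s : Fin n → ℕ} (hs : s ∈ Tup (Fin n) z y) :
    ∏ j, gr (D j) 1 c (s j) =
      Wn D b0 δ c (pos δ b0 s) * ∏ p ∈ (rem δ (s b0)).primeFactors, psi δ c p := by
  have h := mem_T.1 hs
  unfold Wn
  rw [← mul_prod_erase univ _ (mem_univ b0), ← mul_prod_erase univ (fun j =>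
    gr (if j = b0 then δ else D j) (if j = b0 then 1 / 2 else 1) c (pos δ b0 s j)) (mem_univ b0)]
  have h1 : ∏ j ∈ univ.erase b0, gr (if j = b0 then δ else D j) (if j = b0 then 1 / 2 else 1) c
      (pos δ b0 s j) = ∏ j ∈ univ.erase b0, gr (D j) 1 c (s j) := by
    refine prod_congr rfl fun j hj => ?_
    have hj' := (mem_erase.1 hj).1
    rw [if_neg hj', if_neg hj', pos, if_neg hj']
  rw [h1]
  have h2 : gr (D b0) 1 c (s b0) = gr (if b0 = b0 then δ else D b0)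
      (if b0 = b0 then 1 / 2 else 1) c (pos δ b0 s b0) *
      ∏ p ∈ (rem δ (s b0)).primeFactors, psi δ c p := by
    rw [if_pos rfl, if_pos rfl, pos, if_pos rfl, hD]
    unfold gr
    rw [ps_primeFactors, rem_primeFactors,
      ← prod_filter_mul_prod_filter_not (s b0).primeFactors (fun p => Jr δ p = 1)]
    congr 1
    · refine prod_congr rfl fun p hp => ?_
      rw [mem_filter] at hp
      rw [Jr_zero_of_prime (Nat.prime_of_mem_primeFactors hp.1), hp.2]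
      norm_num
    · refine prod_congr rfl fun p hp => ?_
      rw [mem_filter] at hp
      have hpp := Nat.prime_of_mem_primeFactors hp.1
      have h4 := (dv_prime (h.1 b0) hpp (Nat.dvd_of_mem_primeFactors hp.1)).1
      have h5 : Jr δ p = -1 := by
        rcases Jr_pm hδ hpp (by omega) with h6 | h6
        · exact absurd h6 hp.2
        · exact h6
      unfold psi
      rw [Jr_zero_of_prime hpp, h5]
      norm_num
  rw [h2]
  ring

lemma inj (δ : ℤ) (b0 : Fin n) (z y : ℕ) :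
    Set.InjOn (fun s : Fin n → ℕ => (pos δ b0 s, rem δ (s b0))) (Tup (Fin n) z y : Set (Fin n → ℕ)) := by
  intro s hs t ht hst
  rw [mem_coe] at hs ht
  simp only [Prod.mk.injEq] at hst
  obtain ⟨h1, h2⟩ := hst
  funext j
  have h3 := congrFun h1 j
  unfold pos at h3
  by_cases hj : j = b0
  · rw [if_pos hj, if_pos hj] at h3
    rw [hj] at h3 ⊢
    rw [← ps_mul_rem δ (dv_squarefree ((mem_T.1 hs).1 b0)), h3, h2,
      ps_mul_rem δ (dv_squarefree ((mem_T.1 ht).1 b0))]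
  · rw [if_neg hj, if_neg hj] at h3
    exact h3

theorem t_D : S_D := by
  intro n D b0 δ c z hδ hD hz
  obtain ⟨C, hC, hsum⟩ := psi_sum δ hδ hz
  refine ⟨C, hC, fun y G hy hG => ?_⟩
  classical
  set F : (Fin n → ℕ) × ℕ → ℝ := fun x =>
    (G x.1 * Wn D b0 δ c x.1) * ∏ p ∈ x.2.primeFactors, psi δ c p with hF
  have hW : ∀ s ∈ Tup (Fin n) z y, 0 ≤ Wn D b0 δ c s := by
    intro s hs
    refine prod_nonneg fun j _ => gr_nonneg (z := z) (y := y) ?_ (by omega) ((mem_T.1 hs).1 j)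
    split_ifs <;> norm_num
  have hψ : ∀ e ∈ (PP z y).divisors, 0 ≤ ∏ p ∈ e.primeFactors, psi δ c p := by
    intro e he
    refine prod_nonneg fun p hp => (psi_bound hz ?_).1
    exact (dv_prime he (Nat.prime_of_mem_primeFactors hp) (Nat.dvd_of_mem_primeFactors hp)).1
  have h1 : ∑ s ∈ Tup (Fin n) z y, G (pos δ b0 s) * ∏ j, gr (D j) 1 c (s j) =
      ∑ s ∈ Tup (Fin n) z y, F (pos δ b0 s, rem δ (s b0)) := by
    refine sum_congr rfl fun s hs => ?_
    rw [weight_eq D b0 hδ hD hz hs, hF]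
    ring
  have h2 : ∑ s ∈ Tup (Fin n) z y, F (pos δ b0 s, rem δ (s b0)) ≤
      ∑ x ∈ Tup (Fin n) z y ×ˢ (PP z y).divisors, F x := by
    rw [← sum_image (f := F) (inj δ b0 z y)]
    refine sum_le_sum_of_subset_of_nonneg ?_ ?_
    · intro x hx
      obtain ⟨s, hs, rfl⟩ := mem_image.1 hx
      refine mem_product.2 ⟨pos_mem δ b0 hs, ?_⟩
      exact dv_of_dvd ((mem_T.1 hs).1 b0)
        (Dvd.intro_left _ (ps_mul_rem δ (dv_squarefree ((mem_T.1 hs).1 b0))))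
    · intro x hx _
      obtain ⟨h3, h4⟩ := mem_product.1 hx
      exact mul_nonneg (mul_nonneg (hG _) (hW _ h3)) (hψ _ h4)
  have h3 : ∑ x ∈ Tup (Fin n) z y ×ˢ (PP z y).divisors, F x =
      (∑ s ∈ Tup (Fin n) z y, G s * Wn D b0 δ c s) *
        ∑ e ∈ (PP z y).divisors, ∏ p ∈ e.primeFactors, psi δ c p := by
    rw [sum_product, sum_mul_sum]
  rw [h1]
  refine h2.trans ?_
  rw [h3]
  have h4 : 0 ≤ ∑ s ∈ Tup (Fin n) z y, G s * Wn D b0 δ c s :=
    sum_nonneg fun s hs => mul_nonneg (hG s) (hW s hs)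
  calc _ ≤ (∑ s ∈ Tup (Fin n) z y, G s * Wn D b0 δ c s) * (C * (Real.log y) ^ (1 / 2 : ℝ)) :=
        mul_le_mul_of_nonneg_left (hsum y hy) h4
    _ = _ := by
        unfold Wn
        ring

end Pool.Agent.V7H58.CY
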